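import Mathlib
import Pool.Agent.Helper97.AffineA

namespace Pool.Agent.Results.MP_27f3b7_al.AffineNilpotent

/-- For a finite nilpotent group `G` and an affine map `A : x ↦ t * α x` of `G`, the order of `A`
as a permutation of `G` is the largest cycle length of `A` (the cycle length of `x` is the minimal
period of `x`), and it is attained. -/
theorem result (G : Type*) [Group G] [Finite G] [Group.IsNilpotent G] (α : G ≃* G) (t : G)
    (A : Equiv.Perm G) (hA : ∀ x : G, A x = t * α x) :
    IsGreatest (Set.range fun x : G => Function.minimalPeriod A x) (orderOf A) := by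
  have haff : ∀ x y z, A (x * y⁻¹ * z) = A x * (A y)⁻¹ * A z := by
    intro x y z
    rw [hA, hA, hA, hA, map_mul, map_mul, map_inv]
    group
  have hiter : ∀ k x, (⇑A)^[k] x = (A^k) x := by
    intro k x
    rw [← Equiv.Perm.coe_pow]
  have hdvd : ∀ x, Function.minimalPeriod A x ∣ orderOf A := by
    intro x
    apply Function.IsPeriodicPt.minimalPeriod_dvd
    change (⇑A)^[_] _ = _
    rw [hiter, pow_orderOf_eq_one]
    rfl
  constructor
  · obtain ⟨x, hx⟩ := Pool.Agent.Helper97.Affine.regular_nilpotent A haff
    refine ⟨x, Nat.dvd_antisymm (hdvd x) ?_⟩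
    rw [orderOf_dvd_iff_pow_eq_one]
    apply hx
    rw [← hiter]
    exact Function.iterate_minimalPeriod
  · rintro _ ⟨x, rfl⟩
    exact Nat.le_of_dvd (orderOf_pos A) (hdvd x)

end Pool.Agent.Results.MP_27f3b7_al.AffineNilpotent
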